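import Pool.Agent.Work.MP_6241b7_rad.Main
import Pool.Agent.Work.MP_6241b7_nash.NEQ
import Pool.Agent.Work.MP_6241b7_nash.LST
import Pool.Agent.Work.MP_6241b7_co.FracTree

/-!
# Burr's conjecture up to a logarithmic factor: final statements
-/

set_option autoImplicit false

open Finset

namespace Pool.Agent.Work.MP_6241b7_rad

theorem nashType : NashType := Pool.BU.stmt_NEQ

theorem listType : ListType := Pool.BU.stmt_LST

/-- trees near a subtree which is contained in all digraphs of chromatic number larger than `c` -/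
theorem near_subtree {k n h c : ℕ} (D : Fin n → Fin n → Prop) (hD : ∀ x, ¬ D x x)
    {T : Fin (k + 1) → Fin (k + 1) → Prop} (hTas : ∀ a b, T a b → ¬ T b a)
    (hT : (SimpleGraph.fromRel T).IsTree) (S : Finset (Fin (k + 1)))
    (hS : ((SimpleGraph.fromRel T).induce (S : Set (Fin (k + 1)))).Connected)
    (h1 : 1 ≤ h) (hh : ∀ x, ∃ s ∈ S, (SimpleGraph.fromRel T).dist s x ≤ h)
    (hc : ∀ (n' : ℕ) (D' : Fin n' → Fin n' → Prop), (∀ x, ¬ D' x x) →
      ((c : ℕ) : ℕ∞) < (SimpleGraph.fromRel D').chromaticNumber →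
      ∃ g : Fin (k + 1) → Fin n', Set.InjOn g S ∧ ∀ x ∈ S, ∀ y ∈ S, T x y → D' (g x) (g y))
    (hχ : ((c + 24 * k * (Nat.log 3 h + 2) : ℕ) : ℕ∞) <
      (SimpleGraph.fromRel D).chromaticNumber) :
    ∃ f : Fin (k + 1) → Fin n, Function.Injective f ∧ ∀ x y, T x y → D (f x) (f y) := by
  classical
  refine main_explicit nashType listType D hTas hT S hS h1 hh ?_ hχ
  intro W hW
  let e : Fin (Fintype.card {v // W v}) ≃ {v // W v} := (Fintype.equivFin _).symm
  obtain ⟨g, hg, hgD⟩ := hc _ (fun a b => D (e a).1 (e b).1) (fun x => hD _) (by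
    by_contra hcon
    rw [not_lt, SimpleGraph.chromaticNumber_le_iff_colorable] at hcon
    obtain ⟨C⟩ := hcon
    have h2 : (SimpleGraph.fromRel (fun a b : {v // W v} => D a b)).Colorable c := by
      refine ⟨SimpleGraph.Coloring.mk (fun v => C (e.symm v)) ?_⟩
      intro u v huv
      rw [SimpleGraph.fromRel_adj] at huv
      refine C.valid ?_
      rw [SimpleGraph.fromRel_adj]
      refine ⟨fun h => huv.1 (e.symm.injective h), ?_⟩
      simp only [Equiv.apply_symm_apply]
      exact huv.2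
    exact absurd hW (not_lt.2 h2.chromaticNumber_le))
  refine ⟨fun x => (e (g x)).1, ?_, fun x _ => (e (g x)).2, fun x hx y hy hxy => hgD x hx y hy hxy⟩
  intro x hx y hy hxy
  exact hg hx hy (e.injective (Subtype.ext hxy))

open Pool.Agent.Work.MP_6241b7_co Pool.Agent.Work.MP_6241b7_co.Frac in
/-- trees near a directed path -/
theorem near_path {k n m h : ℕ} (D : Fin n → Fin n → Prop) (hD : ∀ x, ¬ D x x)
    {T : Fin (k + 1) → Fin (k + 1) → Prop} (hTas : ∀ a b, T a b → ¬ T b a)
    (hT : (SimpleGraph.fromRel T).IsTree)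
    (p : Fin (m + 1) → Fin (k + 1)) (hp : Function.Injective p)
    (hpT : ∀ i : Fin m, T (p i.castSucc) (p i.succ))
    (h1 : 1 ≤ h) (hh : ∀ x, ∃ i, (SimpleGraph.fromRel T).dist (p i) x ≤ h)
    (hχ : ((m + 24 * k * (Nat.log 3 h + 2) : ℕ) : ℕ∞) <
      (SimpleGraph.fromRel D).chromaticNumber) :
    ∃ f : Fin (k + 1) → Fin n, Function.Injective f ∧ ∀ x y, T x y → D (f x) (f y) := by
  classical
  have hmem : ∀ i, p i ∈ univ.image p := fun i => Finset.mem_image_of_mem p (mem_univ i)
  refine main_explicit nashType listType D hTas hT (univ.image p) ?_ h1 ?_ (c := m) ?_ hχ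
  · -- connected
    set G := (SimpleGraph.fromRel T).induce ((univ.image p : Finset (Fin (k + 1))) :
      Set (Fin (k + 1))) with hG
    have hreach : ∀ j : ℕ, ∀ hj : j < m + 1, G.Reachable
        ⟨p 0, Finset.mem_coe.2 (hmem 0)⟩ ⟨p ⟨j, hj⟩, Finset.mem_coe.2 (hmem _)⟩ := by
      intro j
      induction j with
      | zero => intro hj; exact SimpleGraph.Reachable.refl _
      | succ j ih =>
        intro hj
        refine (ih (by omega)).trans (SimpleGraph.Adj.reachable ?_)
        rw [hG, SimpleGraph.comap_adj, SimpleGraph.fromRel_adj]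
        have h2 := hpT ⟨j, by omega⟩
        refine ⟨fun h3 => ?_, Or.inl h2⟩
        have h4 := hp (show p ⟨j, _⟩ = p ⟨j + 1, _⟩ from h3)
        have h5 := congrArg Fin.val h4
        simp at h5
    have : Nonempty ((univ.image p : Finset (Fin (k + 1))) : Set (Fin (k + 1))) :=
      ⟨⟨p 0, Finset.mem_coe.2 (hmem 0)⟩⟩
    refine ⟨fun a b => ?_⟩
    obtain ⟨a, ha⟩ := a
    obtain ⟨b, hb⟩ := b
    obtain ⟨i, -, rfl⟩ := Finset.mem_image.1 (Finset.mem_coe.1 ha)
    obtain ⟨j, -, rfl⟩ := Finset.mem_image.1 (Finset.mem_coe.1 hb)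
    exact (hreach i.1 i.2).symm.trans (hreach j.1 j.2)
  · intro x
    obtain ⟨i, hi⟩ := hh x
    exact ⟨p i, hmem i, hi⟩
  · intro W hW
    set W' : Finset (Fin n) := univ.filter W with hW'
    have hpath : DPath D W' m := by
      by_contra hno
      obtain ⟨ℓ, hℓ1, hℓ2⟩ := gallai_roy hD hno
      have h2 : (SimpleGraph.fromRel (fun a b : {v // W v} => D a b)).Colorable m := by
        refine ⟨SimpleGraph.Coloring.mk (fun v => (⟨ℓ v.1, hℓ1 v.1 (by simp [hW', v.2])⟩ : Fin m))
          ?_⟩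
        intro u v huv heq
        rw [SimpleGraph.fromRel_adj] at huv
        have h3 : ℓ u.1 = ℓ v.1 := congrArg Fin.val heq
        rcases huv.2 with h4 | h4
        · exact hℓ2 u.1 (by simp [hW', u.2]) v.1 (by simp [hW', v.2]) h4 h3
        · exact hℓ2 v.1 (by simp [hW', v.2]) u.1 (by simp [hW', u.2]) h4 h3.symm
      exact absurd hW (not_lt.2 h2.chromaticNumber_le)
    obtain ⟨r, hr1, hr2, hr3⟩ := hpath
    have hex : ∀ x : Fin (k + 1), ∃ i : Fin (m + 1), x ∈ univ.image p → p i = x := by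
      intro x
      by_cases hx : x ∈ univ.image p
      · obtain ⟨i, -, hi⟩ := Finset.mem_image.1 hx
        exact ⟨i, fun _ => hi⟩
      · exact ⟨0, fun h => absurd h hx⟩
    choose ix hix using hex
    have hixp : ∀ i, ix (p i) = i := fun i => hp (hix _ (hmem i))
    refine ⟨fun x => r (ix x).1, ?_, ?_, ?_⟩
    · intro x hx y hy hxy
      have h3 := hr3 _ (by have := (ix x).2; omega) _ (by have := (ix y).2; omega) hxy
      rw [← hix x (Finset.mem_coe.1 hx), ← hix y (Finset.mem_coe.1 hy), Fin.ext h3]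
    · intro x _
      have h3 := hr1 (ix x).1 (by have := (ix x).2; omega)
      rw [hW', Finset.mem_filter] at h3
      exact h3.2
    · intro x hx y hy hxy
      obtain ⟨i, -, rfl⟩ := Finset.mem_image.1 hx
      obtain ⟨j, -, rfl⟩ := Finset.mem_image.1 hy
      change D (r (ix (p i)).1) (r (ix (p j)).1)
      rw [hixp, hixp]
      have hne : p i ≠ p j := by
        intro h3
        rw [h3] at hxy
        exact hTas _ _ hxy hxy
      have hpar : ∀ v, ∃ u, 0 < ht (SimpleGraph.fromRel T) p v →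
          ((SimpleGraph.fromRel T).Adj v u ∧
          ht (SimpleGraph.fromRel T) p u + 1 = ht (SimpleGraph.fromRel T) p v) := by
        intro v
        by_cases hv : 0 < ht (SimpleGraph.fromRel T) p v
        · obtain ⟨u, hu⟩ := exists_par hT.connected p hv
          exact ⟨u, fun _ => hu⟩
        · exact ⟨v, fun h => absurd h hv⟩
      choose par hpar using hpar
      have hz : ∀ j, ht (SimpleGraph.fromRel T) p (p j) = 0 := fun j =>
        (ht_eq_zero hT.connected p).2 ⟨j, rfl⟩
      rcases (edges hT hp hpT par hpar).2 _ _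
        ((SimpleGraph.fromRel_adj _ _ _).2 ⟨hne, Or.inl hxy⟩) with ⟨l, hl⟩ | ⟨h3, -⟩ | ⟨h3, -⟩
      · rcases Sym2.eq_iff.1 hl with ⟨h3, h4⟩ | ⟨h3, h4⟩
        · rw [hp h3, hp h4]
          exact hr2 l.1 l.2
        · exfalso
          rw [h3, h4] at hxy
          exact hTas _ _ hxy (hpT l)
      · rw [hz] at h3
        omega
      · rw [hz] at h3
        omega

end Pool.Agent.Work.MP_6241b7_rad
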