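import Pool.Agent.Work.MP_6241b7_rad.Levels

/-!
# Colouring a digraph all of whose vertices have low levels
-/

set_option autoImplicit false

open Finset

namespace Pool.Agent.Work.MP_6241b7_rad

/-- greedy colouring from lists of different sizes -/
def ListType : Prop :=
  ∀ (V : Type) [Fintype V] (C : Type) [DecidableEq C] (G : SimpleGraph V) (L : V → Finset C)
    (A : V → Finset V),
    (∀ u v, G.Adj u v → ¬ Disjoint (L u) (L v) → u ∈ A v ∨ v ∈ A u) →
    (∀ v, 2 * (A v).card < (L v).card) →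
    ∃ c : V → C, (∀ v, c v ∈ L v) ∧ ∀ u v, G.Adj u v → c u ≠ c v

/-- number of colours for one class of scale `s` -/
noncomputable def q (b : ℕ) (lam : ℝ) (s : ℕ) : ℕ := 2 * ⌊lam * (((b + 1) * b ^ s : ℕ) - 1)⌋₊ + 1

theorem colourable (hL : ListType) {V ι : Type} [Fintype V] [Fintype ι] {N : ι → V → Finset V}
    {lam : ℝ} {M : ℕ} {p : V → ℕ → ℝ} {Z : ι → V → Set ℕ} (hnn : ∀ v x, 0 ≤ p v x)
    (hnear : ∀ v, ∃ (σ : ι) (a x : ℕ), a ∈ Z σ v ∧ a ≤ x ∧ p v x + p v (x + 1) = 1)
    (habove : ∀ σ v, ∀ z ∈ Z σ v, ∀ y, z ≤ y → y ≤ M →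
      ∑ u ∈ N σ v, ∑ x ∈ Ico z y, p u x ≤ lam * ((y : ℝ) - z))
    {G : SimpleGraph V} (hG : ∀ u v, G.Adj u v → ∀ σ, u ∈ N σ v ∨ v ∈ N σ u)
    {b m : ℕ} (hb : 2 ≤ b) (hm : (b + 2) * m ≤ M) (hz : ∀ v x, m ≤ x → p v x = 0) :
    G.Colorable (Fintype.card ι *
      ∑ s ∈ range (Nat.log b m + 1), (m / b ^ s) * q b lam s) := by
  classical
  choose σ a x ha hax hp using hnear
  have hx : ∀ v, x v < m := by
    intro v
    by_contra hc
    have h1 := hz v (x v) (by omega)
    have h2 := hz v (x v + 1) (by omega)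
    have h3 := hp v
    rw [h1, h2] at h3
    norm_num at h3
  set s : V → ℕ := fun v => Nat.log b (x v - a v + 1) with hs
  have hs1 : ∀ v, b ^ s v ≤ x v - a v + 1 := fun v => Nat.pow_log_le_self b (by omega)
  have hs2 : ∀ v, x v - a v + 1 < b ^ s v * b := by
    intro v
    have := Nat.lt_pow_succ_log_self (by omega : 1 < b) (x v - a v + 1)
    rwa [Nat.succ_eq_add_one, pow_succ] at this
  have hs3 : ∀ v, s v ≤ Nat.log b m := fun v => Nat.log_mono_right (by have := hx v; omega)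
  have hpos : ∀ v, 0 < b ^ s v := fun v => Nat.pow_pos (by omega)
  set β : V → ℕ := fun v => (x v + 1) / b ^ s v with hβ
  have hβ1 : ∀ v, β v * b ^ s v ≤ x v + 1 := fun v => Nat.div_mul_le_self _ _
  have hβ2 : ∀ v, x v + 1 < β v * b ^ s v + b ^ s v := fun v => by
    have := Nat.lt_div_mul_add (a := x v + 1) (hpos v)
    exact this
  have hβ3 : ∀ v, 1 ≤ β v := by
    intro v
    rw [hβ]
    refine (Nat.one_le_div_iff (hpos v)).2 ?_
    have := hs1 v
    omega
  have hβ4 : ∀ v, β v ≤ m / b ^ s v := fun v => Nat.div_le_div_right (by have := hx v; omega)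
  let L : V → Finset (ι × (Σ _ : ℕ, ℕ × ℕ)) := fun v =>
    {σ v} ×ˢ (({s v} : Finset ℕ).sigma fun t => {β v - 1} ×ˢ range (q b lam t))
  have hmem : ∀ v (c : ι × (Σ _ : ℕ, ℕ × ℕ)), c ∈ L v ↔ c.1 = σ v ∧ c.2.1 = s v ∧
      c.2.2.1 = β v - 1 ∧ c.2.2.2 < q b lam c.2.1 := by
    intro v c
    simp only [L, mem_product, mem_singleton, mem_sigma, mem_range]
  have hcard : ∀ v, (L v).card = q b lam (s v) := by
    intro v
    simp only [L, card_product, card_singleton, one_mul, card_sigma, sum_singleton, card_range]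
  have hdis : ∀ u v, ¬ Disjoint (L u) (L v) → σ u = σ v ∧ s u = s v ∧ β u = β v := by
    intro u v h
    rw [Finset.not_disjoint_iff] at h
    obtain ⟨c, hc, hc'⟩ := h
    rw [hmem] at hc hc'
    have h1 := hβ3 u
    have h2 := hβ3 v
    refine ⟨hc.1.symm.trans hc'.1, hc.2.1.symm.trans hc'.2.1, ?_⟩
    have h3 := hc.2.2.1.symm.trans hc'.2.2.1
    omega
  have hA1 : ∀ u v, G.Adj u v → ¬ Disjoint (L u) (L v) →
      u ∈ (N (σ v) v).filter (fun u => ¬ Disjoint (L u) (L v)) ∨
      v ∈ (N (σ u) u).filter (fun v => ¬ Disjoint (L v) (L u)) := by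
    intro u v huv hd
    rcases hG u v huv (σ v) with h | h
    · exact Or.inl (mem_filter.2 ⟨h, hd⟩)
    · refine Or.inr (mem_filter.2 ⟨?_, fun h' => hd h'.symm⟩)
      rw [(hdis u v hd).1]
      exact h
  have hA2 : ∀ v, 2 * ((N (σ v) v).filter (fun u => ¬ Disjoint (L u) (L v))).card <
      (L v).card := by
    intro v
    rw [hcard]
    have h1 := hs1 v
    have h2 := hs2 v
    have h3 := hβ1 v
    have h4 := hβ2 v
    have h5 := hx v
    have h6 := hax v
    have hX := hpos v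
    have hw : a v + ((b + 1) * b ^ s v - 1) ≤ M := by
      have e1 : b ^ s v ≤ m := by omega
      have e2 : (b + 1) * b ^ s v ≤ (b + 1) * m := Nat.mul_le_mul_left _ e1
      have e3 : (b + 2) * m = (b + 1) * m + m := by ring
      omega
    have hab := habove (σ v) v (a v) (ha v) (a v + ((b + 1) * b ^ s v - 1)) (Nat.le_add_right _ _)
      hw
    have hkey : ∀ u ∈ (N (σ v) v).filter (fun u => ¬ Disjoint (L u) (L v)),
        (1 : ℝ) ≤ ∑ y ∈ Ico (a v) (a v + ((b + 1) * b ^ s v - 1)), p u y := by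
      intro u hu
      rw [mem_filter] at hu
      obtain ⟨-, e2, e3⟩ := hdis u v hu.2
      have g3 := hβ1 u
      have g4 := hβ2 u
      rw [e2, e3] at g3 g4
      have hsub : ({x u, x u + 1} : Finset ℕ) ⊆ Ico (a v) (a v + ((b + 1) * b ^ s v - 1)) := by
        have e4 : (b + 1) * b ^ s v = b ^ s v * b + b ^ s v := by ring
        rw [e4]
        generalize b ^ s v * b = Y at h2 ⊢
        generalize β v * b ^ s v = W at h3 h4 g3 g4
        generalize b ^ s v = X at h1 h4 g4 hX ⊢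
        intro y hy
        rw [mem_insert, mem_singleton] at hy
        rw [mem_Ico]
        rcases hy with rfl | rfl <;> constructor <;> omega
      calc (1 : ℝ) = p u (x u) + p u (x u + 1) := (hp u).symm
        _ = ∑ y ∈ ({x u, x u + 1} : Finset ℕ), p u y := by
            rw [Finset.sum_pair (by omega)]
        _ ≤ _ := Finset.sum_le_sum_of_subset_of_nonneg hsub fun y _ _ => hnn u y
    have h7 : (((N (σ v) v).filter (fun u => ¬ Disjoint (L u) (L v))).card : ℝ) * 1 ≤
        ∑ u ∈ (N (σ v) v).filter (fun u => ¬ Disjoint (L u) (L v)),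
          ∑ y ∈ Ico (a v) (a v + ((b + 1) * b ^ s v - 1)), p u y := by
      rw [← nsmul_eq_mul]
      exact Finset.card_nsmul_le_sum _ _ _ hkey
    have h8 : ∑ u ∈ (N (σ v) v).filter (fun u => ¬ Disjoint (L u) (L v)),
          ∑ y ∈ Ico (a v) (a v + ((b + 1) * b ^ s v - 1)), p u y ≤
        ∑ u ∈ N (σ v) v, ∑ y ∈ Ico (a v) (a v + ((b + 1) * b ^ s v - 1)), p u y :=
      Finset.sum_le_sum_of_subset_of_nonneg (filter_subset _ _) fun u _ _ =>
        Finset.sum_nonneg fun x _ => hnn u x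
    have h9 := (h7.trans h8).trans hab
    have h10 : 1 ≤ (b + 1) * b ^ s v := Nat.mul_pos (by omega) hX
    have h11 : ((N (σ v) v).filter (fun u => ¬ Disjoint (L u) (L v))).card ≤
        ⌊lam * (((b + 1) * b ^ s v : ℕ) - 1)⌋₊ := by
      apply Nat.le_floor
      rw [Nat.cast_add, Nat.cast_sub h10, Nat.cast_one, mul_one, add_sub_cancel_left] at h9
      exact h9
    unfold q
    omega
  obtain ⟨c, hc, hc2⟩ := hL V (ι × (Σ _ : ℕ, ℕ × ℕ)) G L _ hA1 hA2
  let S : Finset (ι × (Σ _ : ℕ, ℕ × ℕ)) :=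
    univ ×ˢ ((range (Nat.log b m + 1)).sigma fun t => range (m / b ^ t) ×ˢ range (q b lam t))
  have hS : ∀ v, c v ∈ S := by
    intro v
    have h := (hmem v (c v)).1 (hc v)
    simp only [S, mem_product, mem_univ, mem_sigma, mem_range, true_and]
    refine ⟨?_, ?_, h.2.2.2⟩
    · rw [h.2.1]
      have := hs3 v
      omega
    · rw [h.2.1, h.2.2.1]
      have h1 := hβ3 v
      have h2 := hβ4 v
      omega
  have hScard : Fintype.card S = Fintype.card ι *
      ∑ s ∈ range (Nat.log b m + 1), (m / b ^ s) * q b lam s := by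
    rw [Fintype.card_coe]
    simp only [S, card_product, card_univ, card_sigma, card_range]
  rw [← hScard]
  exact (SimpleGraph.Coloring.mk (fun v => (⟨c v, hS v⟩ : S)) fun {u v} h heq =>
    hc2 u v h (congrArg Subtype.val heq)).colorable

/-- the number of colours -/
theorem sum_q_le {b m : ℕ} (hb : 2 ≤ b) {lam : ℝ} (hlam : 1 / 2 ≤ lam) :
    ((∑ s ∈ range (Nat.log b m + 1), (m / b ^ s) * q b lam s : ℕ) : ℝ) ≤
      (Nat.log b m + 1) * (2 * lam * (b + 1) * m) := by
  rw [Nat.cast_sum]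
  have h1 : ∀ s ∈ range (Nat.log b m + 1), (((m / b ^ s) * q b lam s : ℕ) : ℝ) ≤
      2 * lam * (b + 1) * m := by
    intro s _
    have hX : (1 : ℝ) ≤ (b : ℝ) ^ s := one_le_pow₀ (by exact_mod_cast (by omega : 1 ≤ b))
    have hb0 : (0 : ℝ) ≤ b := Nat.cast_nonneg _
    have e1 : (0 : ℝ) ≤ lam * (((b + 1) * b ^ s : ℕ) - 1) := by
      apply mul_nonneg (by linarith)
      push_cast
      nlinarith
    have e2 : (q b lam s : ℝ) ≤ 2 * lam * (b + 1) * (b : ℝ) ^ s := by
      unfold q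
      have e3 := Nat.floor_le e1
      push_cast at e3 ⊢
      nlinarith
    have e4 : ((m / b ^ s : ℕ) : ℝ) ≤ m / (b : ℝ) ^ s := by
      have := Nat.cast_div_le (α := ℝ) (m := m) (n := b ^ s)
      push_cast at this
      exact this
    have e5 : (0 : ℝ) ≤ q b lam s := Nat.cast_nonneg _
    calc (((m / b ^ s) * q b lam s : ℕ) : ℝ) = ((m / b ^ s : ℕ) : ℝ) * (q b lam s : ℝ) := by
          push_cast; ring
      _ ≤ (m / (b : ℝ) ^ s) * (2 * lam * (b + 1) * (b : ℝ) ^ s) := by
          apply mul_le_mul e4 e2 e5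
          positivity
      _ = 2 * lam * (b + 1) * m := by
          field_simp
  have h2 := Finset.sum_le_card_nsmul _ _ _ h1
  rw [card_range, nsmul_eq_mul, Nat.cast_add, Nat.cast_one] at h2
  exact h2

end Pool.Agent.Work.MP_6241b7_rad
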