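import Mathlib

/-!
# Levels of the vertices of a digraph: definition and existence

Version with a price `lam` per level and an arbitrary finite set `ι` of neighbourhood systems, based on
the blocks LEV, EMB, RND of `MP_6241b7_nash`.
-/

set_option autoImplicit false

open Finset

namespace Pool.Agent.Work.MP_6241b7_rad

/-- `p v` is the law of the level at which `v` is seen, `Z σ v` the set of levels which are best
possible for `v` with respect to its neighbours of sign `σ`. -/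
structure Levels {V ι : Type} (N : ι → V → Finset V) (lam : ℝ) (M : ℕ) (p : V → ℕ → ℝ)
    (Z : ι → V → Set ℕ) : Prop where
  nonneg : ∀ v x, 0 ≤ p v x
  total : ∀ v, ∑ x ∈ range (M + 1), p v x = 1
  zero : ∀ v x, M < x → p v x = 0
  le : ∀ σ v, ∀ z ∈ Z σ v, z ≤ M
  lev : ∀ v x, 0 < p v x → ∀ σ, ∃ z ∈ Z σ v, x ≤ z
  near : ∀ v, ∃ (σ : ι) (a x : ℕ), a ∈ Z σ v ∧ a ≤ x ∧ p v x + p v (x + 1) = 1
  below : ∀ σ v, ∀ z ∈ Z σ v, ∀ x ≤ z,
    lam * ((z : ℝ) - x) ≤ ∑ u ∈ N σ v, ∑ y ∈ Ico x z, p u y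
  above : ∀ σ v, ∀ z ∈ Z σ v, ∀ y, z ≤ y → y ≤ M →
    ∑ u ∈ N σ v, ∑ x ∈ Ico z y, p u x ≤ lam * ((y : ℝ) - z)

/-- a Nash type theorem for continuous payoffs -/
def NashType : Prop :=
  ∀ (ι : Type) [Fintype ι] (S : Type) [Fintype S] [Nonempty S] (F : (ι → S → ℝ) → ι → S → ℝ),
    Continuous F → ∃ P : ι → S → ℝ, (∀ i s, 0 ≤ P i s) ∧ (∀ i, ∑ s, P i s = 1) ∧
      ∀ i s, 0 < P i s → ∀ t, F P i t ≤ F P i s

section

variable {V ι : Type} [Fintype V] [Fintype ι] [Nonempty ι]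

/-- mean of the mixed strategy of `i` -/
noncomputable def mn {M : ℕ} (P : V × ι → Fin (M + 1) → ℝ) (i : V × ι) : ℝ :=
  ∑ a : Fin (M + 1), ((a : ℕ) : ℝ) * P i a

/-- real position of `v` -/
noncomputable def cc {M : ℕ} (P : V × ι → Fin (M + 1) → ℝ) (v : V) : ℝ :=
  (univ : Finset ι).inf' univ_nonempty (fun σ => mn P (v, σ))

/-- the weight of the position `c` at the level `x` -/
noncomputable def wt (c : ℝ) (x : ℕ) : ℝ := max 0 (1 - |(x : ℝ) - c|)

/-- law of the level of `v` -/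
noncomputable def pp {M : ℕ} (P : V × ι → Fin (M + 1) → ℝ) (v : V) (x : ℕ) : ℝ :=
  if x ≤ M then wt (cc P v) x else 0

/-- payoff -/
noncomputable def F (N : ι → V → Finset V) (lam : ℝ) (M : ℕ) (P : V × ι → Fin (M + 1) → ℝ)
    (i : V × ι) (z : Fin (M + 1)) : ℝ :=
  ∑ u ∈ N i.2 i.1, ∑ y ∈ range (z : ℕ), pp P u y - lam * (z : ℝ)

omit [Fintype V] [Fintype ι] [Nonempty ι] in
theorem cont_mn (M : ℕ) (i : V × ι) :
    Continuous (fun P : V × ι → Fin (M + 1) → ℝ => mn P i) := by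
  unfold mn
  exact continuous_finsetSum _ (fun a _ => continuous_const.mul (continuous_apply_apply _ _))

omit [Fintype V] in
theorem cont_cc (M : ℕ) (v : V) :
    Continuous (fun P : V × ι → Fin (M + 1) → ℝ => cc P v) := by
  unfold cc
  exact Continuous.finset_inf'_apply univ_nonempty (fun σ _ => cont_mn M (v, σ))

omit [Fintype V] in
theorem cont (N : ι → V → Finset V) (lam : ℝ) (M : ℕ) : Continuous (F N lam M) := by
  refine continuous_pi (fun i => continuous_pi (fun z => ?_))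
  unfold F pp
  refine Continuous.sub (continuous_finsetSum _ (fun u _ => continuous_finsetSum _ (fun y _ => ?_)))
    continuous_const
  split_ifs
  · unfold wt
    exact continuous_const.max (continuous_const.sub
      ((continuous_const.sub (cont_cc M u)).abs))
  · exact continuous_const

end

theorem wt_nonneg (c : ℝ) (x : ℕ) : 0 ≤ wt c x := le_max_left _ _

theorem wt_floor {c : ℝ} (hc : 0 ≤ c) : wt c ⌊c⌋₊ = 1 - (c - ⌊c⌋₊) := by
  have h1 := Nat.floor_le hc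
  have h2 := Nat.lt_floor_add_one c
  unfold wt
  rw [abs_of_nonpos (by linarith), max_eq_right (by linarith)]
  ring

theorem wt_floor_succ {c : ℝ} (hc : 0 ≤ c) : wt c (⌊c⌋₊ + 1) = c - ⌊c⌋₊ := by
  have h1 := Nat.floor_le hc
  have h2 := Nat.lt_floor_add_one c
  unfold wt
  push_cast
  rw [abs_of_nonneg (by linarith), max_eq_right (by linarith)]
  ring

theorem wt_other {c : ℝ} (hc : 0 ≤ c) (x : ℕ) (h1 : x ≠ ⌊c⌋₊) (h2 : x ≠ ⌊c⌋₊ + 1) :
    wt c x = 0 := by
  have h3 := Nat.floor_le hc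
  have h4 := Nat.lt_floor_add_one c
  unfold wt
  apply max_eq_left
  rcases lt_or_ge x ⌊c⌋₊ with h | h
  · have h5 : (x : ℝ) + 1 ≤ (⌊c⌋₊ : ℝ) := by exact_mod_cast h
    rw [abs_of_nonpos (by linarith)]
    linarith
  · have h6 : ⌊c⌋₊ + 2 ≤ x := by omega
    have h5 : (⌊c⌋₊ : ℝ) + 2 ≤ (x : ℝ) := by exact_mod_cast h6
    rw [abs_of_nonneg (by linarith)]
    linarith

theorem wt_pos {c : ℝ} {x : ℕ} (h : 0 < wt c x) : (x : ℝ) < c + 1 := by
  unfold wt at h
  rcases lt_max_iff.1 h with h1 | h1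
  · exact absurd h1 (lt_irrefl _)
  · have := le_abs_self ((x : ℝ) - c)
    linarith

theorem two {M : ℕ} {c : ℝ} (hc : 0 ≤ c) (hcM : c ≤ M) :
    ⌊c⌋₊ ≤ M ∧ (wt c ⌊c⌋₊ + if ⌊c⌋₊ + 1 ≤ M then wt c (⌊c⌋₊ + 1) else 0) = 1 := by
  have h1 := Nat.floor_le hc
  have h0 : ⌊c⌋₊ ≤ M := by
    have : (⌊c⌋₊ : ℝ) ≤ M := le_trans h1 hcM
    exact_mod_cast this
  refine ⟨h0, ?_⟩
  split_ifs with h
  · rw [wt_floor hc, wt_floor_succ hc]; ring
  · have h2 : ⌊c⌋₊ = M := by omega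
    rw [wt_floor hc]
    have h3 : (⌊c⌋₊ : ℝ) = M := by rw [h2]
    rw [h3] at h1 ⊢
    linarith

theorem total {M : ℕ} {c : ℝ} (hc : 0 ≤ c) (hcM : c ≤ M) :
    ∑ x ∈ range (M + 1), (if x ≤ M then wt c x else 0) = 1 := by
  obtain ⟨h0, h1⟩ := two hc hcM
  have e : ∀ x ∈ range (M + 1), (if x ≤ M then wt c x else 0) =
      (if x = ⌊c⌋₊ then wt c ⌊c⌋₊ else 0) + (if x = ⌊c⌋₊ + 1 then wt c (⌊c⌋₊ + 1) else 0) := by
    intro x hx
    have hxM : x ≤ M := Nat.lt_succ_iff.1 (mem_range.1 hx)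
    rw [if_pos hxM]
    by_cases h2 : x = ⌊c⌋₊
    · rw [if_pos h2, if_neg (by omega), add_zero, h2]
    · by_cases h3 : x = ⌊c⌋₊ + 1
      · rw [if_neg h2, if_pos h3, zero_add, h3]
      · rw [if_neg h2, if_neg h3, add_zero, wt_other hc x h2 h3]
  rw [sum_congr rfl e, sum_add_distrib, sum_ite_eq', sum_ite_eq', if_pos (mem_range.2 (by omega))]
  rw [← h1]
  congr 1
  by_cases h4 : ⌊c⌋₊ + 1 ≤ M
  · rw [if_pos (mem_range.2 (by omega)), if_pos h4]
  · rw [if_neg (fun h => h4 (by have := mem_range.1 h; omega)), if_neg h4]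

theorem exists_levels (hN : NashType) {V ι : Type} [Fintype V] [Fintype ι] [Nonempty ι]
    (N : ι → V → Finset V) (lam : ℝ) (M : ℕ) :
    ∃ (p : V → ℕ → ℝ) (Z : ι → V → Set ℕ), Levels N lam M p Z := by
  obtain ⟨P, h0, h1, h2⟩ := hN (V × ι) (Fin (M + 1)) (F N lam M) (cont N lam M)
  have hm0 : ∀ i, 0 ≤ mn P i := fun i =>
    sum_nonneg (fun a _ => mul_nonneg (Nat.cast_nonneg _) (h0 i a))
  have hmM : ∀ i, mn P i ≤ M := by
    intro i
    have : mn P i ≤ ∑ a : Fin (M + 1), (M : ℝ) * P i a := by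
      refine sum_le_sum (fun a _ => mul_le_mul_of_nonneg_right ?_ (h0 i a))
      exact_mod_cast Nat.lt_succ_iff.1 a.2
    rw [← mul_sum, h1, mul_one] at this
    exact this
  have hcs : ∀ v σ, cc P v ≤ mn P (v, σ) := fun v σ => Finset.inf'_le _ (mem_univ σ)
  have hex : ∀ v, ∃ σ, cc P v = mn P (v, σ) := by
    intro v
    obtain ⟨σ, -, hσ⟩ := Finset.exists_mem_eq_inf' (univ_nonempty (α := ι)) (fun σ => mn P (v, σ))
    exact ⟨σ, hσ⟩
  have hc0 : ∀ v, 0 ≤ cc P v := by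
    intro v
    obtain ⟨σ, hσ⟩ := hex v
    rw [hσ]
    exact hm0 _
  have hcM : ∀ v, cc P v ≤ M := by
    intro v
    obtain ⟨σ, hσ⟩ := hex v
    rw [hσ]
    exact hmM _
  refine ⟨pp P, fun σ v => {z | ∃ h : z < M + 1, 0 < P (v, σ) ⟨z, h⟩}, ?_⟩
  refine ⟨?_, ?_, ?_, ?_, ?_, ?_, ?_, ?_⟩
  · intro v x
    unfold pp
    split_ifs
    · exact wt_nonneg _ _
    · exact le_refl 0
  · intro v
    exact total (hc0 v) (hcM v)
  · intro v x hx
    unfold pp
    rw [if_neg (by omega)]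
  · intro σ v z hz
    obtain ⟨h, _⟩ := hz
    omega
  · intro v x hx σ
    have hxw : 0 < wt (cc P v) x := by
      unfold pp at hx
      by_cases hxM : x ≤ M
      · rwa [if_pos hxM] at hx
      · rw [if_neg hxM] at hx; exact absurd hx (lt_irrefl _)
    have h3 := wt_pos hxw
    have h4 := hcs v σ
    by_contra hcon
    push Not at hcon
    have h5 : mn P (v, σ) ≤ ∑ a : Fin (M + 1), ((x : ℝ) - 1) * P (v, σ) a := by
      refine sum_le_sum (fun a _ => ?_)
      rcases lt_or_eq_of_le (h0 (v, σ) a) with h | h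
      · have h6 : (a : ℕ) < x := hcon a ⟨a.2, h⟩
        have h7 : ((a : ℕ) : ℝ) + 1 ≤ x := by exact_mod_cast h6
        exact mul_le_mul_of_nonneg_right (by linarith) (h0 (v, σ) a)
      · rw [← h]; simp
    rw [← mul_sum, h1, mul_one] at h5
    linarith
  · intro v
    obtain ⟨σ, hσ⟩ := hex v
    have ha : ∃ a : Fin (M + 1), 0 < P (v, σ) a ∧ ((a : ℕ) : ℝ) ≤ mn P (v, σ) := by
      by_contra hcon
      push Not at hcon
      have h3 : ∀ a : Fin (M + 1), 0 ≤ (((a : ℕ) : ℝ) - mn P (v, σ)) * P (v, σ) a := by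
        intro a
        rcases lt_or_eq_of_le (h0 (v, σ) a) with h | h
        · exact mul_nonneg (by linarith [hcon a h]) h.le
        · rw [← h, mul_zero]
      have h4 : ∑ a : Fin (M + 1), (((a : ℕ) : ℝ) - mn P (v, σ)) * P (v, σ) a = 0 := by
        have e : ∀ a ∈ (univ : Finset (Fin (M + 1))),
            (((a : ℕ) : ℝ) - mn P (v, σ)) * P (v, σ) a =
            ((a : ℕ) : ℝ) * P (v, σ) a - mn P (v, σ) * P (v, σ) a := fun a _ => by ring
        rw [sum_congr rfl e, sum_sub_distrib, ← mul_sum, h1, mul_one]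
        unfold mn
        ring
      have h5 := (sum_eq_zero_iff_of_nonneg (fun a _ => h3 a)).1 h4
      have h6 : ∀ a, P (v, σ) a = 0 := by
        intro a
        rcases lt_or_eq_of_le (h0 (v, σ) a) with h | h
        · have h7 := h5 a (mem_univ a)
          have h8 := hcon a h
          rcases mul_eq_zero.1 h7 with h9 | h9
          · linarith
          · exact h9
        · exact h.symm
      have h7 := h1 (v, σ)
      rw [sum_eq_zero (fun a _ => h6 a)] at h7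
      exact absurd h7 (by norm_num)
    obtain ⟨a, ha0, ha1⟩ := ha
    obtain ⟨t1, t2⟩ := two (hc0 v) (hcM v)
    refine ⟨σ, a, ⌊cc P v⌋₊, ⟨a.2, ha0⟩, ?_, ?_⟩
    · rw [Nat.le_floor_iff (hc0 v), hσ]; exact ha1
    · unfold pp
      rw [if_pos t1]
      exact t2
  · intro σ v z hz x hx
    obtain ⟨hzM, hPz⟩ := hz
    have hF := h2 (v, σ) ⟨z, hzM⟩ hPz ⟨x, lt_of_le_of_lt hx hzM⟩
    unfold F at hF
    simp only at hF
    have hsplit : ∑ u ∈ N σ v, ∑ y ∈ Ico x z, pp P u y =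
        ∑ u ∈ N σ v, ∑ y ∈ range z, pp P u y - ∑ u ∈ N σ v, ∑ y ∈ range x, pp P u y := by
      rw [← sum_sub_distrib]
      exact sum_congr rfl (fun u _ => sum_Ico_eq_sub _ hx)
    rw [hsplit]
    linarith
  · intro σ v z hz y hy hyM
    obtain ⟨hzM, hPz⟩ := hz
    have hF := h2 (v, σ) ⟨z, hzM⟩ hPz ⟨y, Nat.lt_succ_of_le hyM⟩
    unfold F at hF
    simp only at hF
    have hsplit : ∑ u ∈ N σ v, ∑ x ∈ Ico z y, pp P u x =
        ∑ u ∈ N σ v, ∑ x ∈ range y, pp P u x - ∑ u ∈ N σ v, ∑ x ∈ range z, pp P u x := by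
      rw [← sum_sub_distrib]
      exact sum_congr rfl (fun u _ => sum_Ico_eq_sub _ hy)
    rw [hsplit]
    linarith

end Pool.Agent.Work.MP_6241b7_rad
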