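import Mathlib

/-!
# Trees near a subtree
-/

set_option autoImplicit false

open Finset

namespace Pool.Agent.Work.MP_6241b7_rad

variable {k : ℕ}

/-- The vertices outside a connected set `S0` of a tree: heights (distance to `S0`) and parents. -/
theorem split {G : SimpleGraph (Fin (k + 1))} (hT : G.IsTree) (S0 : Finset (Fin (k + 1)))
    (hS0 : (G.induce (S0 : Set (Fin (k + 1)))).Connected) :
    ∃ (par : Fin (k + 1) → Fin (k + 1)) (κ : Fin (k + 1) → ℕ),
      (∀ x ∈ S0, κ x = 0) ∧ (∀ x, x ∉ S0 → κ x = κ (par x) + 1) ∧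
      (∀ x, ∀ s ∈ S0, κ x ≤ G.dist s x) ∧
      ∀ a b, G.Adj a b → (a ∈ S0 ∧ b ∈ S0) ∨ (a ∉ S0 ∧ b = par a) ∨ (b ∉ S0 ∧ a = par b) := by
  classical
  have hconn := hT.connected
  obtain ⟨⟨s0, hs0⟩⟩ := hS0.nonempty
  have hne : S0.Nonempty := ⟨s0, hs0⟩
  let d : Fin (k + 1) → ℕ := fun x => S0.inf' hne (fun s => G.dist s x)
  have hdle : ∀ x, ∀ s ∈ S0, d x ≤ G.dist s x := fun x s hs => Finset.inf'_le _ hs
  have hdex : ∀ x, ∃ s ∈ S0, d x = G.dist s x := fun x => Finset.exists_mem_eq_inf' hne _
  have hd0 : ∀ x, d x = 0 ↔ x ∈ S0 := by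
    intro x
    constructor
    · intro h
      obtain ⟨s, hs, hs2⟩ := hdex x
      have := hconn.dist_eq_zero_iff.1 (hs2 ▸ h)
      rw [← this]
      exact hs
    · intro h
      have := hdle x x h
      rw [SimpleGraph.dist_self] at this
      omega
  have hdadj : ∀ u v, G.Adj u v → d v ≤ d u + 1 := by
    intro u v h
    obtain ⟨s, hs, hs2⟩ := hdex u
    have h1 := hdle v s hs
    have h2 := hconn.dist_triangle (u := s) (v := u) (w := v)
    have h3 : G.dist u v = 1 := SimpleGraph.dist_eq_one_iff_adj.2 h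
    omega
  have hex : ∀ v, ∃ u, v ∉ S0 → (G.Adj v u ∧ d u + 1 = d v) := by
    intro v
    by_cases hv : v ∈ S0
    · exact ⟨v, fun h => absurd hv h⟩
    · obtain ⟨s, hs, hs2⟩ := hdex v
      obtain ⟨w, hw⟩ := hconn.exists_walk_length_eq_dist v s
      cases w with
      | nil => exact absurd hs hv
      | @cons _ u _ hadj w' =>
        refine ⟨u, fun _ => ⟨hadj, ?_⟩⟩
        have h1 : G.dist u s ≤ w'.length := SimpleGraph.dist_le w'
        rw [SimpleGraph.Walk.length_cons] at hw
        have h3 := hdle u s hs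
        have h4 := hdadj u v hadj.symm
        rw [SimpleGraph.dist_comm] at hs2 h3
        omega
  choose par hpar using hex
  refine ⟨par, d, fun x hx => (hd0 x).2 hx, fun x hx => (hpar x hx).2.symm, hdle, ?_⟩
  -- counting the edges
  set E1 : Finset (Sym2 (Fin (k + 1))) := G.edgeFinset.filter (fun e => ∀ x ∈ e, x ∈ S0) with hE1
  set E2 : Finset (Sym2 (Fin (k + 1))) := (S0ᶜ).image (fun v => s(v, par v)) with hE2
  have c1 : S0.card ≤ E1.card + 1 := by
    have h1 := hS0.card_vert_le_card_edgeSet_add_one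
    have h2 : Nat.card (G.induce (S0 : Set (Fin (k + 1)))).edgeSet ≤ E1.card := by
      have h3 : Nat.card E1 = E1.card := by
        rw [Nat.card_eq_fintype_card, Fintype.card_coe]
      rw [← h3]
      refine Nat.card_le_card_of_injective
        (fun e => (⟨Sym2.map Subtype.val e.1, ?_⟩ : E1)) ?_
      · obtain ⟨e, he⟩ := e
        induction e with
        | _ x y =>
          rw [SimpleGraph.mem_edgeSet] at he
          rw [hE1, Finset.mem_filter, SimpleGraph.mem_edgeFinset]
          change s(x.1, y.1) ∈ G.edgeSet ∧ _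
          refine ⟨he, ?_⟩
          intro z hz
          change z ∈ s(x.1, y.1) at hz
          rw [Sym2.mem_iff] at hz
          rcases hz with rfl | rfl
          · exact x.2
          · exact y.2
      · intro e e' h
        have h4 := congrArg Subtype.val h
        exact Subtype.ext (Sym2.map.injective Subtype.val_injective h4)
    have h5 : Nat.card (S0 : Set (Fin (k + 1))) = S0.card := by
      rw [Nat.card_eq_fintype_card]
      simp
    omega
  have c2 : E2.card = (S0ᶜ).card := by
    refine Finset.card_image_of_injOn ?_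
    intro v hv w hw hvw
    have hv' := Finset.mem_compl.1 (Finset.mem_coe.1 hv)
    have hw' := Finset.mem_compl.1 (Finset.mem_coe.1 hw)
    rcases Sym2.eq_iff.1 hvw with ⟨h1, -⟩ | ⟨h1, h2⟩
    · exact h1
    · have h3 := (hpar v hv').2
      have h4 := (hpar w hw').2
      rw [← h1] at h4
      rw [h2] at h3
      omega
  have c3 : S0.card + (S0ᶜ).card = k + 1 := by
    rw [Finset.card_add_card_compl, Fintype.card_fin]
  have hdisj : Disjoint E1 E2 := by
    rw [Finset.disjoint_left]
    intro e h1 h2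
    obtain ⟨v, hv, rfl⟩ := Finset.mem_image.1 h2
    exact Finset.mem_compl.1 hv ((Finset.mem_filter.1 h1).2 v (Sym2.mem_mk_left _ _))
  have hsub : E1 ∪ E2 ⊆ G.edgeFinset := by
    intro e he
    rcases Finset.mem_union.1 he with he | he
    · exact (Finset.mem_filter.1 he).1
    · obtain ⟨v, hv, rfl⟩ := Finset.mem_image.1 he
      rw [SimpleGraph.mem_edgeFinset, SimpleGraph.mem_edgeSet]
      exact (hpar v (Finset.mem_compl.1 hv)).1
  have hcard := hT.card_edgeFinset
  rw [Fintype.card_fin] at hcard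
  have heq : E1 ∪ E2 = G.edgeFinset := by
    refine Finset.eq_of_subset_of_card_le hsub ?_
    rw [Finset.card_union_of_disjoint hdisj, c2]
    omega
  intro a b hab
  have h1 : s(a, b) ∈ E1 ∪ E2 := by
    rw [heq, SimpleGraph.mem_edgeFinset]
    exact hab
  rcases Finset.mem_union.1 h1 with h1 | h1
  · have h2 := (Finset.mem_filter.1 h1).2
    exact Or.inl ⟨h2 a (Sym2.mem_mk_left _ _), h2 b (Sym2.mem_mk_right _ _)⟩
  · obtain ⟨v, hv, hv2⟩ := Finset.mem_image.1 h1
    have hv' := Finset.mem_compl.1 hv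
    rcases Sym2.eq_iff.1 hv2 with ⟨h3, h4⟩ | ⟨h3, h4⟩
    · rw [← h3, ← h4]
      exact Or.inr (Or.inl ⟨hv', rfl⟩)
    · rw [← h3, ← h4]
      exact Or.inr (Or.inr ⟨hv', rfl⟩)

end Pool.Agent.Work.MP_6241b7_rad
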