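import Pool.Agent.Work.MP_6241b7_rad.Embed
import Pool.Agent.Work.MP_6241b7_rad.Colour
import Pool.Agent.Work.MP_6241b7_rad.Tree

/-!
# Trees near a subtree in digraphs of large chromatic number
-/

set_option autoImplicit false

open Finset

namespace Pool.Agent.Work.MP_6241b7_rad

/-- out-neighbours (`true`) and in-neighbours (`false`) -/
def Nb {V : Type} [Fintype V] (D : V → V → Prop) [DecidableRel D] (σ : Bool) (v : V) : Finset V :=
  if σ then univ.filter (fun u => D v u) else univ.filter (fun u => D u v)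

theorem mem_true {V : Type} [Fintype V] (D : V → V → Prop) [DecidableRel D] (v u : V) :
    u ∈ Nb D true v ↔ D v u := by
  simp [Nb]

theorem mem_false {V : Type} [Fintype V] (D : V → V → Prop) [DecidableRel D] (v u : V) :
    u ∈ Nb D false v ↔ D u v := by
  simp [Nb]

/-- a colouring of a digraph from colourings of two parts -/
theorem colorable_union {V : Type} {D : V → V → Prop} (W : V → Prop) {c₁ c₂ : ℕ}
    (h1 : (SimpleGraph.fromRel (fun a b : {v // W v} => D a b)).Colorable c₁)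
    (h2 : (SimpleGraph.fromRel (fun a b : {v // ¬ W v} => D a b)).Colorable c₂) :
    (SimpleGraph.fromRel D).Colorable (c₁ + c₂) := by
  classical
  obtain ⟨C1⟩ := h1
  obtain ⟨C2⟩ := h2
  have hc : Fintype.card (Fin c₁ ⊕ Fin c₂) = c₁ + c₂ := by simp
  rw [← hc]
  refine (SimpleGraph.Coloring.mk (fun v => if h : W v then (Sum.inl (C1 ⟨v, h⟩) : Fin c₁ ⊕ Fin c₂)
    else Sum.inr (C2 ⟨v, h⟩)) ?_).colorable
  intro u v huv heq
  rw [SimpleGraph.fromRel_adj] at huv
  by_cases hu : W u <;> by_cases hv : W v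
  · rw [dif_pos hu, dif_pos hv] at heq
    refine C1.valid (v := ⟨u, hu⟩) (w := ⟨v, hv⟩) ?_ (Sum.inl_injective heq)
    rw [SimpleGraph.fromRel_adj]
    exact ⟨fun h => huv.1 (congrArg Subtype.val h), huv.2⟩
  · rw [dif_pos hu, dif_neg hv] at heq
    exact absurd heq (by simp)
  · rw [dif_neg hu, dif_pos hv] at heq
    exact absurd heq (by simp)
  · rw [dif_neg hu, dif_neg hv] at heq
    refine C2.valid (v := ⟨u, hu⟩) (w := ⟨v, hv⟩) ?_ (Sum.inr_injective heq)
    rw [SimpleGraph.fromRel_adj]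
    exact ⟨fun h => huv.1 (congrArg Subtype.val h), huv.2⟩

/-- the low vertices can be coloured -/
theorem low_colorable (hL : ListType) {V : Type} [Fintype V] {D : V → V → Prop} [DecidableRel D]
    {lam : ℝ} {M : ℕ} {p : V → ℕ → ℝ} {Z : Bool → V → Set ℕ} (H : Levels (Nb D) lam M p Z)
    {b m : ℕ} (hb : 2 ≤ b) (hm : (b + 2) * m ≤ M) (W : V → Prop)
    (hW : ∀ v, ¬ W v → ∀ x, m ≤ x → p v x = 0) :
    (SimpleGraph.fromRel (fun a b : {v // ¬ W v} => D a b)).Colorable
      (Fintype.card Bool * ∑ s ∈ range (Nat.log b m + 1), (m / b ^ s) * q b lam s) := by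
  classical
  refine colourable hL (V := {v // ¬ W v}) (N := fun σ v => Nb (fun a b : {v // ¬ W v} => D a b) σ v)
    (lam := lam) (M := M) (p := fun v => p v.1) (Z := fun σ v => Z σ v.1)
    (fun v x => H.nonneg v.1 x) (fun v => H.near v.1) ?_ ?_ hb hm (fun v x hx => hW v.1 v.2 x hx)
  · intro σ v z hz y hzy hyM
    refine le_trans ?_ (H.above σ v.1 z hz y hzy hyM)
    have h1 : ∑ u ∈ Nb (fun a b : {v // ¬ W v} => D a b) σ v, ∑ x ∈ Ico z y, p u.1 x =
        ∑ u ∈ (Nb (fun a b : {v // ¬ W v} => D a b) σ v).map (Function.Embedding.subtype _),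
          ∑ x ∈ Ico z y, p u x := by
      rw [Finset.sum_map]
      rfl
    rw [h1]
    refine Finset.sum_le_sum_of_subset_of_nonneg ?_ fun u _ _ =>
      Finset.sum_nonneg fun x _ => H.nonneg u x
    intro u hu
    rw [Finset.mem_map] at hu
    obtain ⟨u', hu', rfl⟩ := hu
    cases σ
    · have h2 : D u'.1 v.1 := (mem_false (fun a b : {v // ¬ W v} => D a b) v u').1 hu'
      exact (mem_false D v.1 u'.1).2 h2
    · have h2 : D v.1 u'.1 := (mem_true (fun a b : {v // ¬ W v} => D a b) v u').1 hu'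
      exact (mem_true D v.1 u'.1).2 h2
  · intro u v huv σ
    rw [SimpleGraph.fromRel_adj] at huv
    cases σ
    · rcases huv.2 with h | h
      · exact Or.inl ((mem_false _ _ _).2 h)
      · exact Or.inr ((mem_false _ _ _).2 h)
    · rcases huv.2 with h | h
      · exact Or.inr ((mem_true _ _ _).2 h)
      · exact Or.inl ((mem_true _ _ _).2 h)

/-- the orientation of the edge to the parent -/
noncomputable def sg {k : ℕ} (T : Fin (k + 1) → Fin (k + 1) → Prop)
    (par : Fin (k + 1) → Fin (k + 1)) (x : Fin (k + 1)) : Bool := by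
  classical exact decide (T (par x) x)

/-- main theorem, with the number of colours as a sum -/
theorem main (hN : NashType) (hL : ListType) {k n : ℕ} (D : Fin n → Fin n → Prop)
    {T : Fin (k + 1) → Fin (k + 1) → Prop} (hTas : ∀ a b, T a b → ¬ T b a)
    (hT : (SimpleGraph.fromRel T).IsTree) (S0 : Finset (Fin (k + 1)))
    (hS0 : ((SimpleGraph.fromRel T).induce (S0 : Set (Fin (k + 1)))).Connected)
    {h : ℕ} (hh : ∀ x, ∃ s ∈ S0, (SimpleGraph.fromRel T).dist s x ≤ h)
    {lam : ℝ} (hlam : 0 < lam) {b m : ℕ} (hb : 2 ≤ b) (hm : lam * ((h : ℝ) - 1) + k < lam * m)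
    {c : ℕ} (hc : ∀ W : Fin n → Prop,
      ((c : ℕ) : ℕ∞) < (SimpleGraph.fromRel (fun a b : {v // W v} => D a b)).chromaticNumber →
      ∃ f : Fin (k + 1) → Fin n, Set.InjOn f S0 ∧ (∀ x ∈ S0, W (f x)) ∧
        ∀ x ∈ S0, ∀ y ∈ S0, T x y → D (f x) (f y))
    (hχ : ((c + 2 * ∑ s ∈ range (Nat.log b m + 1), (m / b ^ s) * q b lam s : ℕ) : ℕ∞) <
      (SimpleGraph.fromRel D).chromaticNumber) :
    ∃ f : Fin (k + 1) → Fin n, Function.Injective f ∧ ∀ x y, T x y → D (f x) (f y) := by
  classical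
  obtain ⟨p, Z, H⟩ := exists_levels hN (Nb D) lam ((b + 2) * m)
  set W : Fin n → Prop := fun v => ∃ y, m ≤ y ∧ 0 < p v y with hW
  have hlow := low_colorable hL H hb le_rfl W (by
    intro v hv x hx
    by_contra h0
    exact hv ⟨x, hx, lt_of_le_of_ne (H.nonneg v x) (Ne.symm h0)⟩)
  rw [Fintype.card_bool] at hlow
  have hbig : ((c : ℕ) : ℕ∞) <
      (SimpleGraph.fromRel (fun a b : {v // W v} => D a b)).chromaticNumber := by
    by_contra hcon
    rw [not_lt, SimpleGraph.chromaticNumber_le_iff_colorable] at hcon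
    have h1 := (colorable_union W hcon hlow).chromaticNumber_le
    exact absurd hχ (not_lt.2 h1)
  obtain ⟨f0, hf0, hf0W, hf0D⟩ := hc W hbig
  obtain ⟨par, κ, hκ0, hκ, hκd, hadj⟩ := split hT S0 hS0
  have hκh : ∀ x, κ x ≤ h := by
    intro x
    obtain ⟨s, hs, hs2⟩ := hh x
    exact (hκd x s hs).trans hs2
  obtain ⟨f, hf, hfS, harc⟩ := embed H hlam hf0 (sg T par) hκ hκh hm (fun x hx => hf0W x hx)
  refine ⟨f, hf, ?_⟩
  intro x y hxy
  have hne : x ≠ y := by
    rintro rfl
    exact hTas _ _ hxy hxy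
  rcases hadj x y ((SimpleGraph.fromRel_adj _ _ _).2 ⟨hne, Or.inl hxy⟩) with
    ⟨h1, h2⟩ | ⟨h1, h2⟩ | ⟨h1, h2⟩
  · rw [hfS x h1, hfS y h2]
    exact hf0D x h1 y h2 hxy
  · have h3 := harc x h1
    have h4 : sg T par x = false := by
      unfold sg
      rw [← h2]
      exact decide_eq_false (hTas _ _ hxy)
    rw [h4, ← h2] at h3
    exact (mem_false _ _ _).1 h3
  · have h3 := harc y h1
    have h4 : sg T par y = true := by
      unfold sg
      rw [← h2]
      exact decide_eq_true hxy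
    rw [h4, ← h2] at h3
    exact (mem_true _ _ _).1 h3

/-- main theorem, explicit bound -/
theorem main_explicit (hN : NashType) (hL : ListType) {k n : ℕ} (D : Fin n → Fin n → Prop)
    {T : Fin (k + 1) → Fin (k + 1) → Prop} (hTas : ∀ a b, T a b → ¬ T b a)
    (hT : (SimpleGraph.fromRel T).IsTree) (S0 : Finset (Fin (k + 1)))
    (hS0 : ((SimpleGraph.fromRel T).induce (S0 : Set (Fin (k + 1)))).Connected)
    {h : ℕ} (h1 : 1 ≤ h) (hh : ∀ x, ∃ s ∈ S0, (SimpleGraph.fromRel T).dist s x ≤ h)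
    {c : ℕ} (hc : ∀ W : Fin n → Prop,
      ((c : ℕ) : ℕ∞) < (SimpleGraph.fromRel (fun a b : {v // W v} => D a b)).chromaticNumber →
      ∃ f : Fin (k + 1) → Fin n, Set.InjOn f S0 ∧ (∀ x ∈ S0, W (f x)) ∧
        ∀ x ∈ S0, ∀ y ∈ S0, T x y → D (f x) (f y))
    (hχ : ((c + 24 * k * (Nat.log 3 h + 2) : ℕ) : ℕ∞) <
      (SimpleGraph.fromRel D).chromaticNumber) :
    ∃ f : Fin (k + 1) → Fin n, Function.Injective f ∧ ∀ x y, T x y → D (f x) (f y) := by
  classical
  rcases Nat.eq_zero_or_pos k with hk | hk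
  · -- a single vertex
    subst hk
    have h2 : ((c : ℕ) : ℕ∞) < (SimpleGraph.fromRel (fun a b : {v : Fin n // True} =>
        D a b)).chromaticNumber := by
      by_contra hcon
      rw [not_lt, SimpleGraph.chromaticNumber_le_iff_colorable] at hcon
      obtain ⟨C⟩ := hcon
      have h3 : (SimpleGraph.fromRel D).Colorable c := by
        refine ⟨SimpleGraph.Coloring.mk (fun v => C ⟨v, trivial⟩) ?_⟩
        intro u v huv
        rw [SimpleGraph.fromRel_adj] at huv
        refine C.valid ?_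
        rw [SimpleGraph.fromRel_adj]
        exact ⟨fun h => huv.1 (congrArg Subtype.val h), huv.2⟩
      have h4 := h3.chromaticNumber_le
      rw [Nat.mul_zero, Nat.zero_mul, Nat.add_zero] at hχ
      exact absurd hχ (not_lt.2 h4)
    obtain ⟨f, -, -, -⟩ := hc _ h2
    have hsub : ∀ a b : Fin (0 + 1), a = b := fun a b => Fin.ext (by omega)
    refine ⟨f, fun a b _ => hsub a b, fun x y hxy => ?_⟩
    exfalso
    have : x = y := hsub x y
    subst this
    exact hTas _ _ hxy hxy
  · -- the height can be taken at most `k`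
    set h' := min h k with hh'
    have hh1 : 1 ≤ h' := le_min h1 hk
    have hhk : h' ≤ k := min_le_right _ _
    have hd : ∀ x, ∃ s ∈ S0, (SimpleGraph.fromRel T).dist s x ≤ h' := by
      intro x
      obtain ⟨s, hs, hs2⟩ := hh x
      refine ⟨s, hs, le_min hs2 ?_⟩
      obtain ⟨w, hw, hw2⟩ := hT.connected.exists_path_of_dist s x
      have h3 := hw.length_lt
      rw [Fintype.card_fin] at h3
      omega
    have hk0 : (0 : ℝ) < k := by exact_mod_cast hk
    have hh0 : (0 : ℝ) < h' := by exact_mod_cast hh1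
    have hhk' : (h' : ℝ) ≤ k := by exact_mod_cast hhk
    set lam : ℝ := k / (2 * h') with hlam
    have hlam0 : 0 < lam := by positivity
    have hlam1 : lam * h' = k / 2 := by
      rw [hlam]
      field_simp
    have hlam2 : 1 / 2 ≤ lam := by
      rw [hlam, div_le_div_iff₀ (by norm_num) (by positivity)]
      linarith
    refine main hN hL D hTas hT S0 hS0 hd hlam0 (b := 3) (m := 3 * h') (by norm_num) ?_ hc
      (lt_of_le_of_lt ?_ hχ)
    · push_cast
      have e1 : lam * (3 * (h' : ℝ)) = 3 * (lam * h') := by ring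
      rw [mul_sub, e1, hlam1]
      linarith
    · have e1 := sum_q_le (b := 3) (m := 3 * h') (by norm_num) hlam2
      have e2 : Nat.log 3 (3 * h') = Nat.log 3 h' + 1 := by
        rw [mul_comm]
        exact Nat.log_mul_base (by norm_num) (by omega)
      have e3 : Nat.log 3 h' ≤ Nat.log 3 h := Nat.log_mono_right (min_le_left _ _)
      have e4 : ∑ s ∈ range (Nat.log 3 (3 * h') + 1), (3 * h') / 3 ^ s * q 3 lam s ≤
          12 * k * (Nat.log 3 h + 2) := by
        have e5 : ((∑ s ∈ range (Nat.log 3 (3 * h') + 1), (3 * h') / 3 ^ s * q 3 lam s : ℕ) : ℝ) ≤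
            ((12 * k * (Nat.log 3 h + 2) : ℕ) : ℝ) := by
          refine e1.trans ?_
          rw [e2]
          push_cast
          have e6 : (2 * lam * (3 + 1) * (3 * (h' : ℝ))) = 24 * (lam * h') := by ring
          rw [e6, hlam1]
          have e7 : (Nat.log 3 h' : ℝ) ≤ Nat.log 3 h := by exact_mod_cast e3
          nlinarith
        exact_mod_cast e5
      have e8 : c + 2 * ∑ s ∈ range (Nat.log 3 (3 * h') + 1), (3 * h') / 3 ^ s * q 3 lam s ≤
          c + 24 * k * (Nat.log 3 h + 2) := by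
        have : 24 * k * (Nat.log 3 h + 2) = 2 * (12 * k * (Nat.log 3 h + 2)) := by ring
        omega
      exact_mod_cast e8

end Pool.Agent.Work.MP_6241b7_rad
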